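import Pool.Agent.D0H43.JQ.End
import Pool.Agent.D0H43.JQ.SelF
import Pool.Agent.D0H43.MQ.Ov2
import Pool.Agent.D0H70.MQ.Selot

/-!
# The joint law of the `2^∞`-Selmer groups of the quartic twists by the divisors over `ℚ(i)`

`K = ℚ(i)`, `E_D : y² = x³ + D x`, and `Sel D` is the `2^∞`-Selmer group of `E_D` over `K`.  The curve
`E_{D t²}` is the quadratic twist of `E_D` by `t`; so for a `D` with `n` prime divisors there are the `2 ^ n`
quadratic twists of `E_D` by the divisors of `D`, and also those by `i t`, `(1 + i) t`, ....  In particular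
`E_{-D}` is the twist by `i`, and the pair `(E_D, E_{-D})` over `K` is the curve `E_D` over `ℚ(ζ_8)`.  Put
`c = ∏_{j ≥ 0} (1 - 2^{-(2 j + 1)}) = 0.4194...`.  Ordered by the norm:

* `D` squarefree, `D = i` modulo `2` (one third of the squarefree `D`): `Sel D = 0` if and only if
  `Sel (D t²) = 0` for ALL divisors `t` of `D`, units included.  So ALL these groups are `0` for exactly
  the proportion `c` of the `D`.  The kernels of `1 + i` on `Sel D` and on `Sel (-D)` have the same order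
  for every `D`.
* `D` squarefree and divisible by `1 + i` (one third of the squarefree `D`): `Sel D = 0` if and only if
  `Sel (D t²) = 0` for all the divisors `t = 1` modulo `2`: proportion `c`.  `Sel D` and `Sel (-D)` are
  both `0` if and only if `Sel (D t²) = 0` for all the divisors `t` prime to `2`: exactly the proportion
  `c / 2`.  Exactly one of `Sel D`, `Sel (-D)` is `0` for exactly the proportion `c`, so none is `0` for
  exactly `1 - 3 c / 2`.  They are not independent, since `c ^ 2 < c / 2`.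
* `D` squarefree and not `1` modulo `2` (two thirds of the squarefree `D`): all `Sel (D t²)`, `t = 1` modulo
  `2`, are `0` for `c`, all those with `t` prime to `2` for `3 c / 4` (exactly one of `Sel D`, `Sel (-D)` for
  `c / 2`); these are `2 c / 3`, `c / 2` (and `c / 3`) of ALL the squarefree `D`.
* `D = 2 Δ` with `Δ` squarefree, `Δ = 1` modulo `2 + 2 i`: `Sel D = 0` if and only if `Sel (D t²) = 0` and
  `Sel (2 i D t²) = 0` for all the divisors `t = 1` modulo `2` (the twists by `t` and by `(1 + i) t`):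
  proportion `c`.

* Over extensions: let `D` be squarefree and not `1` modulo `2` with `Sel D = 0` (or `Sel D = Sel (-D) = 0`).  For
  EVERY number field `F` generated over `K` by square roots of divisors of `D` that are `1` modulo `2` (or prime
  to `2`) and every such divisor `t`, the `2^∞`-Selmer group of `E_{D t²}` over `F` is killed by `[F : K]`.

So the law of one curve is in each case the simultaneous law of unboundedly many curves: all the groups vanish
together.  The criterion for `Sel D = 0` is that a (bordered) symmetric matrix over the field with two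
elements is nonsingular (project Q4, block D), and the descent for `D t²` has the same matrix (project MQ).  For
`-D` only the corner of the matrix changes, so the sum of the two determinants is the determinant of the
principal minor, which is again a symmetric matrix of residue symbols with a potential, and the law of one
such matrix is known (large sieve engine of helper45).  The equivalence of `Sel D = 0` with `E_D(K)` finite
and `Ш(E_D / K)[2^∞] = 0` uses the theorem of Mordell and Weil from the library.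

`IsShaCoc` of the library: the continuous cocycles of the absolute Galois group of `K` with values
in the points over an algebraic closure that are coboundaries at all the places.

Joint work: helper43 (pencil, twists by divisors, assembly), helper45 (proportions), helper76 (descents),
helper70 (descent for `1 + i ∣ D` and the twists), helper10 (the `2^∞`-Selmer group, assembly of project
Q4), and the modules of project Q4.  Replaces `JointLawOfQuarticTwists` (only `t = 1` and `t = i`).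
-/

set_option autoImplicit false

namespace Pool.Agent.Results.MP_a3f657_nt.JointLawByDivisors

open NumberField WeierstrassCurve
open Pool.Agent.TH841.SH.D (Pt act Gal Coch)
open Pool.Agent.TH841.NF.D (IsShaCoc)
open scoped Classical

section defs

variable {K : Type} [Field K] [NumberField K]

/-- The curve `E_D : y² = x³ + D x`. -/
def curve {K : Type} [Field K] (D : K) : WeierstrassCurve K := ⟨0, 0, 0, D, 0⟩

/-- The endomorphism `(x, y) ↦ (- x, i y)` of `E_D` for a square root `i` of `- 1`, on the points over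
an extension `L`. -/
noncomputable def rotation {K : Type} [Field K] (D i : K) (L : Type) [Field L] [Algebra K L] :
    Pt (curve D) L → Pt (curve D) L
  | 0 => 0
  | .some x y _ =>
    if h : ((curve D).baseChange L).toAffine.Nonsingular (-x) (algebraMap K L i * y) then
      .some _ _ h
    else 0

/-- The group of the continuous cocycles of the absolute Galois group of `K` with values in
`E_D[2^∞]` that are coboundaries in `E_D` at all the places of `K`. -/
def Cocycles (D : K) : AddSubgroup (Coch (curve D)) where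
  carrier := {f | IsShaCoc (curve D) f ∧ ∀ σ, ∃ n : ℕ, 2 ^ n • f σ = 0}
  zero_mem' := (Pool.Agent.D0H10.Q5.Inf.selCoc D).zero_mem'
  add_mem' := (Pool.Agent.D0H10.Q5.Inf.selCoc D).add_mem'
  neg_mem' := (Pool.Agent.D0H10.Q5.Inf.selCoc D).neg_mem'

/-- The group of the coboundaries of the points of `E_D[2^∞]`. -/
def Coboundaries (D : K) : AddSubgroup (Coch (curve D)) where
  carrier := {f | ∃ P : Pt (curve D) (AlgebraicClosure K), (∃ n : ℕ, 2 ^ n • P = 0) ∧
    ∀ σ : Gal K, f σ = act (curve D) σ.toAlgHom P - P}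
  zero_mem' := (Pool.Agent.D0H10.Q5.Inf.cobInf D).zero_mem'
  add_mem' := (Pool.Agent.D0H10.Q5.Inf.cobInf D).add_mem'
  neg_mem' := (Pool.Agent.D0H10.Q5.Inf.cobInf D).neg_mem'

/-- The `2^∞`-Selmer group of `E_D` over `K`: the kernel of
`H¹(K, E_D[2^∞]) → ∏ H¹(K_v, E_D)`. -/
def Sel (D : K) : Type := Cocycles D ⧸ (Coboundaries D).addSubgroupOf (Cocycles D)

/-- The group law of the `2^∞`-Selmer group. -/
noncomputable instance Sel.group (D : K) : AddCommGroup (Sel D) :=
  @QuotientAddGroup.Quotient.addCommGroup (Cocycles D) _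
    ((Coboundaries D).addSubgroupOf (Cocycles D))

/-- The class of a cocycle. -/
noncomputable def cls {D : K} (f : Cocycles D) : Sel D := QuotientAddGroup.mk f

/-- The kernel of the endomorphism `1 + i` on the `2^∞`-Selmer group: the classes of the
cocycles `f` for which `σ ↦ f σ + i (f σ)` is a coboundary. -/
def killed (i D : K) : Set (Sel D) :=
  {x | ∃ f : Cocycles D, cls f = x ∧
    (fun σ => f.1 σ + rotation D i (AlgebraicClosure K) (f.1 σ) : Coch (curve D)) ∈
      Coboundaries D}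

/-- `Sel D = 0`. -/
def Trivial (D : 𝓞 K) : Prop := ∀ x : Sel (D : K), x = 0

/-- `Sel D = 0` and `Sel (-D) = 0`. -/
def BothTrivial (D : 𝓞 K) : Prop := Trivial D ∧ Trivial (-D)

/-- Exactly one of the groups `Sel D`, `Sel (-D)` is `0`. -/
def OneTrivial (D : 𝓞 K) : Prop := ¬ (Trivial D ↔ Trivial (-D))

/-- `D` is squarefree and not `1` modulo `2`. -/
def NotOneModTwo (D : 𝓞 K) : Prop := Squarefree D ∧ ¬ 2 ∣ D - 1

/-- `D` is squarefree and `D = i` modulo `2` for a square root `i` of `-1`. -/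
def OddImaginary (D : 𝓞 K) : Prop := Squarefree D ∧ ∃ i : 𝓞 K, i ^ 2 = -1 ∧ 2 ∣ D - i

/-- `D` is squarefree and divisible by `1 + i` for a square root `i` of `-1`. -/
def EvenNorm (D : 𝓞 K) : Prop := Squarefree D ∧ ∃ i : 𝓞 K, i ^ 2 = -1 ∧ 1 + i ∣ D

/-- `D = 2 Δ`, `Δ` is squarefree and `Δ = 1` modulo `2 + 2 i` for a square root `i` of `-1`. -/
def TwicePrimary (D : 𝓞 K) : Prop :=
  ∃ Δ : 𝓞 K, Squarefree Δ ∧ (∃ i : 𝓞 K, i ^ 2 = -1 ∧ 2 + 2 * i ∣ Δ - 1) ∧ D = 2 * Δ

/-- `t` is a divisor of `D` and `1` modulo `2`. -/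
def OneDivisor (D t : 𝓞 K) : Prop := t ∣ D ∧ 2 ∣ t - 1

/-- `t` is a divisor of `D` and prime to `2`. -/
def OddDivisor (D t : 𝓞 K) : Prop := t ∣ D ∧ IsCoprime t 2

/-- `t = t'` or `t = (1 + i) t'` for a divisor `t'` of `D` that is `1` modulo `2` and a square root `i` of
`-1`. -/
def ExtendedDivisor (D t : 𝓞 K) : Prop :=
  ∃ t', OneDivisor D t' ∧ (t = t' ∨ ∃ i : 𝓞 K, i ^ 2 = -1 ∧ t = (1 + i) * t')

/-- `Sel (D t²) = 0` for all the `t` with `T D t`. -/
def AllTrivial (T : 𝓞 K → 𝓞 K → Prop) (D : 𝓞 K) : Prop := ∀ t : 𝓞 K, T D t → Trivial (D * t ^ 2)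

/-- `F` is generated over `K` by finitely many square roots of elements `t` with the property `T`. -/
def GeneratedByRoots (F : Type) [Field F] [Algebra K F] (T : 𝓞 K → Prop) : Prop :=
  ∃ (n : ℕ) (x : Fin n → F), (∀ k, ∃ t : 𝓞 K, T t ∧ x k ^ 2 = algebraMap K F (t : K)) ∧
    IntermediateField.adjoin K (Set.range x) = ⊤

/-- For every number field `F` generated over `K` by square roots of elements with the property `T D` and
every `t` with `T D t` the `2^∞`-Selmer group of `E_{D t²}` over `F` is killed by `[F : K]`. -/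
def KilledByDegree (T : 𝓞 K → 𝓞 K → Prop) (D : 𝓞 K) : Prop :=
  ∀ (F : Type) [Field F] [NumberField F] [Algebra K F], GeneratedByRoots F (T D) →
    ∀ t : 𝓞 K, T D t → ∀ x : Sel (algebraMap K F ((D * t ^ 2 : 𝓞 K) : K)),
      Module.finrank K F • x = 0

/-- The proportion, among the `D` of norm at most `X` with the property `Q`, of the `D` with the
properties `P` and `T` (`P` implies `Q` below). -/
noncomputable def proportion (P Q T : 𝓞 K → Prop) (X : ℕ) : ℝ :=
  ({D : 𝓞 K | Algebra.norm ℤ D ≤ X ∧ P D ∧ T D}.ncard : ℝ) /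
    ({D : 𝓞 K | Algebra.norm ℤ D ≤ X ∧ Q D}.ncard : ℝ)

/-- `∏_{j ≥ 0} (1 - 2^{-(2 j + 1)})`. -/
noncomputable def c : ℝ := ∏' j : ℕ, (1 - (1 / 2 : ℝ) ^ (2 * j + 1))

end defs

theorem trivial_iff {K : Type} [Field K] [NumberField K] {i : K} (hi : i ^ 2 = -1) {D : 𝓞 K}
    (hD : D ≠ 0) : Pool.Agent.D0H10.Q4.FinT D ↔ Trivial D :=
  Pool.Agent.D0H43.JQ.triv_finT hD hi

theorem finT_of {K : Type} [Field K] [NumberField K] {D : 𝓞 K} {T : 𝓞 K → Prop}
    (h : Pool.Agent.D0H43.MQ.Pk D T) (t : 𝓞 K) (ht : T t) (h0 : D * t ^ 2 ≠ 0) :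
    Pool.Agent.D0H10.Q4.FinT (D * t ^ 2) := by
  obtain ⟨e, S, T', m, C, -, -, h2, h3, -, h5⟩ := h
  obtain ⟨t, rfl⟩ := e.surjective t
  obtain ⟨A, hA, h4⟩ := h2 t ht
  rw [← h4] at h0 ⊢
  have hA1 : ((e A : 𝓞 K) : K) ≠ 0 := fun h => h0 (RingOfIntegers.ext h)
  haveI : Module.Finite ℤ (Pool.Agent.D0H43.RZ.cv ((e A : 𝓞 K) : K)).toAffine.Point :=
    Pool.Agent.D0H43.RZ.mw hA1
  have h6 : Finite (Pool.Agent.D0H43.RZ.cv ((e A : 𝓞 K) : K)).toAffine.Point :=
    Pool.Agent.D0H43.RZ.fin_of_rank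
      (Nat.le_zero.1 (h3 Pool.Agent.D0H70.MQ.selot K e A hA))
  exact ⟨h6, h5 Pool.Agent.D0H70.MQ.selot K e A hA⟩

theorem all_of {K : Type} [Field K] [NumberField K] {i : K} (hi : i ^ 2 = -1) {D : 𝓞 K}
    {T : 𝓞 K → 𝓞 K → Prop} (hD : D ≠ 0) (hT : ∀ t, T D t → t ≠ 0)
    (h : Pool.Agent.D0H43.MQ.Pk D (T D)) : AllTrivial T D := by
  intro t ht
  have h0 : D * t ^ 2 ≠ 0 := mul_ne_zero hD (pow_ne_zero 2 (hT t ht))
  exact (trivial_iff hi h0).1 (finT_of h t ht h0)

theorem killed_of {K : Type} [Field K] [NumberField K] {D : 𝓞 K}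
    {T : 𝓞 K → 𝓞 K → Prop} (hD : D ≠ 0) (hT : ∀ t, T D t → t ≠ 0)
    (h : Pool.Agent.D0H43.MQ.Pk D (T D)) : KilledByDegree T D := by
  intro F _ _ _ hF t ht
  have h0 : D * t ^ 2 ≠ 0 := mul_ne_zero hD (pow_ne_zero 2 (hT t ht))
  have h1 : ((D * t ^ 2 : 𝓞 K) : K) ≠ 0 := fun h => h0 (RingOfIntegers.ext h)
  have h2 : algebraMap K F ((D * t ^ 2 : 𝓞 K) : K) ≠ 0 := (map_ne_zero _).2 h1
  exact Pool.Agent.D0H43.JQ.sel_killed h2 (h.fin Pool.Agent.D0H70.MQ.selot F hF t ht)
    (fun n x hx => h.sha Pool.Agent.D0H70.MQ.selot F hF t ht n x hx)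

theorem one_mem {K : Type} [Field K] [NumberField K] {T : 𝓞 K → 𝓞 K → Prop} {D : 𝓞 K}
    (h : AllTrivial T D) (h1 : T D 1) : Trivial D := by
  have h2 := h 1 h1
  rwa [one_pow, mul_one] at h2

theorem dvd_ne {K : Type} [Field K] [NumberField K] {D t : 𝓞 K} (hD : D ≠ 0) (h : t ∣ D) : t ≠ 0 := by
  rintro rfl
  exact hD (zero_dvd_iff.1 h)

theorem ext_ne {K : Type} [Field K] [NumberField K] {D t : 𝓞 K} (hD : D ≠ 0)
    (h : ExtendedDivisor D t) : t ≠ 0 := by
  obtain ⟨t', ⟨h1, -⟩, rfl | ⟨i, hi, rfl⟩⟩ := h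
  · exact dvd_ne hD h1
  · refine mul_ne_zero (fun h2 => ?_) (dvd_ne hD h1)
    have h3 : i = -1 := by linear_combination h2
    rw [h3] at hi
    have h4 : (2 : 𝓞 K) = 0 := by linear_combination hi
    exact two_ne_zero h4

open Filter in
theorem result (K : Type) [Field K] [NumberField K] [IsCyclotomicExtension {4} ℚ K] (i : K)
    (hi : i ^ 2 = -1) :
    (∀ D : 𝓞 K, OddImaginary D → (killed i (D : K)).ncard = (killed i ((-D : 𝓞 K) : K)).ncard ∧
      (Trivial D ↔ AllTrivial OddDivisor D)) ∧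
    (∀ D : 𝓞 K, EvenNorm D → (Trivial D ↔ AllTrivial OneDivisor D) ∧
      (BothTrivial D ↔ AllTrivial OddDivisor D)) ∧
    (∀ D : 𝓞 K, TwicePrimary D → (Trivial D ↔ AllTrivial ExtendedDivisor D)) ∧
    (∀ D : 𝓞 K, NotOneModTwo D → Trivial D → KilledByDegree OneDivisor D) ∧
    (∀ D : 𝓞 K, NotOneModTwo D → BothTrivial D → KilledByDegree OddDivisor D) ∧
    Tendsto (proportion (K := K) OddImaginary OddImaginary (AllTrivial OddDivisor)) atTop (nhds c) ∧
    Tendsto (proportion (K := K) TwicePrimary TwicePrimary (AllTrivial ExtendedDivisor)) atTop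
      (nhds c) ∧
    (Tendsto (proportion (K := K) EvenNorm EvenNorm (AllTrivial OneDivisor)) atTop (nhds c) ∧
      Tendsto (proportion (K := K) EvenNorm EvenNorm (AllTrivial OddDivisor)) atTop
        (nhds (1 / 2 * c)) ∧
      Tendsto (proportion (K := K) EvenNorm EvenNorm OneTrivial) atTop (nhds c)) ∧
    (Tendsto (proportion (K := K) NotOneModTwo NotOneModTwo (AllTrivial OneDivisor)) atTop
        (nhds c) ∧
      Tendsto (proportion (K := K) NotOneModTwo NotOneModTwo (AllTrivial OddDivisor)) atTop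
        (nhds (3 / 4 * c)) ∧
      Tendsto (proportion (K := K) NotOneModTwo NotOneModTwo OneTrivial) atTop
        (nhds (1 / 2 * c))) ∧
    (Tendsto (proportion (K := K) NotOneModTwo Squarefree (AllTrivial OneDivisor)) atTop
        (nhds (2 / 3 * c)) ∧
      Tendsto (proportion (K := K) NotOneModTwo Squarefree (AllTrivial OddDivisor)) atTop
        (nhds (1 / 2 * c)) ∧
      Tendsto (proportion (K := K) NotOneModTwo Squarefree OneTrivial) atTop
        (nhds (1 / 3 * c))) ∧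
    (0.4194 ≤ c ∧ c < 0.4195 ∧ c ^ 2 < 1 / 2 * c) := by
  obtain ⟨e, he⟩ := Pool.Agent.D0H10.Q4.Rng.exists_e K
  have hiO : (e H385.im1) ^ 2 = -1 := by
    rw [← map_pow, show (H385.im1 : H385.ZI) ^ 2 = -1 by decide, map_neg, map_one]
  have hne : ∀ D : 𝓞 K, Squarefree D → (Pool.Agent.D0H10.Q4.FinT D ↔ Trivial D) := fun D hD =>
    trivial_iff hi hD.ne_zero
  have hneg : ∀ D : 𝓞 K, Squarefree D → Squarefree (-D) := fun D hD x hx => hD x ((dvd_neg).1 hx)
  have hB : ∀ D : 𝓞 K, Squarefree D → (Pool.Agent.D0H43.JQ.Both D ↔ BothTrivial D) := fun D hD =>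
    and_congr (hne D hD) (hne _ (hneg D hD))
  have hO : ∀ D : 𝓞 K, Squarefree D → (Pool.Agent.D0H43.JQ.One D ↔ OneTrivial D) := fun D hD =>
    not_congr (iff_congr (hne D hD) (hne _ (hneg D hD)))
  -- the all-or-none statements
  have notOdd : ∀ D : 𝓞 K, OddImaginary D → NotOneModTwo D := by
    intro D hD
    obtain ⟨D, rfl⟩ := e.surjective D
    obtain ⟨p, hp, Δ, hΔ, h⟩ := (Pool.Agent.D0H10.Q4.oneK e D).1 hD
    have h1 : ∀ p ∈ Pool.Agent.D0H10.Q4.S1, p ∈ Pool.Agent.D0H43.Q4.P.S4 := by decide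
    exact (Pool.Agent.D0H43.Q4.P.notOneK e D).2 ⟨p, h1 p hp, Δ, hΔ, h⟩
  have a1 : ∀ D : 𝓞 K, NotOneModTwo D → (Trivial D ↔ AllTrivial OneDivisor D) := by
    intro D hD
    refine ⟨fun h => all_of hi hD.1.ne_zero (fun t ht => dvd_ne hD.1.ne_zero ht.1)
      (Pool.Agent.D0H43.MQ.pkN1 Pool.Agent.D0H10.Q4.bd Pool.Agent.D0H43.Q4.P.bo hD
        ((hne D hD.1).2 h)), fun h => one_mem h ⟨one_dvd D, by simp⟩⟩
  have a2 : ∀ D : 𝓞 K, NotOneModTwo D → (BothTrivial D ↔ AllTrivial OddDivisor D) := by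
    intro D hD
    refine ⟨fun h => all_of hi hD.1.ne_zero (fun t ht => dvd_ne hD.1.ne_zero ht.1)
      (Pool.Agent.D0H43.MQ.pkN2 Pool.Agent.D0H10.Q4.bd Pool.Agent.D0H43.Q4.P.bo hD
        ((hne D hD.1).2 h.1) ((hne _ (hneg D hD.1)).2 h.2)), fun h => ⟨one_mem h ⟨one_dvd D,
          isCoprime_one_left⟩, ?_⟩⟩
    have hu : IsUnit (e H385.im1) := IsUnit.of_mul_eq_one (-(e H385.im1)) (by
      linear_combination -hiO)
    have h2 := h (e H385.im1) ⟨hu.dvd, (isCoprime_one_left (x := (2 : 𝓞 K))).of_isCoprime_of_dvd_left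
      (isUnit_iff_dvd_one.1 hu)⟩
    rw [hiO] at h2
    have h3 : D * -1 = -D := by ring
    rwa [h3] at h2
  have a3 : ∀ D : 𝓞 K, TwicePrimary D → (Pool.Agent.D0H10.Q4.FinT D ↔ Trivial D) ∧
      (Trivial D ↔ AllTrivial ExtendedDivisor D) := by
    intro D hD
    have hD0 : D ≠ 0 := by
      obtain ⟨Δ, h1, -, rfl⟩ := hD
      exact mul_ne_zero two_ne_zero h1.ne_zero
    refine ⟨trivial_iff hi hD0, fun h t ht => ?_, fun h => one_mem h ⟨1, ⟨one_dvd D, by simp⟩,
      Or.inl rfl⟩⟩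
    have h0 : D * t ^ 2 ≠ 0 := mul_ne_zero hD0 (pow_ne_zero 2 (ext_ne hD0 ht))
    obtain ⟨t', h1, h2⟩ := ht
    obtain ⟨j, hj, h3⟩ : ∃ j : 𝓞 K, j ^ 2 = -1 ∧ (t = t' ∨ t = (1 + j) * t') := by
      rcases h2 with h2 | ⟨j, hj, h2⟩
      · exact ⟨e H385.im1, hiO, Or.inl h2⟩
      · exact ⟨j, hj, Or.inr h2⟩
    exact (trivial_iff hi h0).1 (finT_of (Pool.Agent.D0H43.MQ.pkN4 Pool.Agent.D0H10.Q4.bd hj
      (Or.inl hD) ((trivial_iff hi hD0).2 h)) t ⟨t', h1.1, h1.2, h3⟩ h0)
  have odd2 : ∀ D : 𝓞 K, OddImaginary D → (Trivial D ↔ Trivial (-D)) := by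
    intro D hD
    rw [← hne D hD.1, ← hne _ (hneg D hD.1)]
    exact Pool.Agent.D0H43.JQ.odd_both K D hD
  have a0 : ∀ D : 𝓞 K, OddImaginary D → (Trivial D ↔ AllTrivial OddDivisor D) := by
    intro D hD
    rw [← a2 D (notOdd D hD)]
    exact ⟨fun h => ⟨h, (odd2 D hD).1 h⟩, fun h => h.1⟩
  have notEven : ∀ D : 𝓞 K, EvenNorm D → NotOneModTwo D := by
    intro D hD
    obtain ⟨D, rfl⟩ := e.surjective D
    obtain ⟨p, hp, Δ, hΔ, h⟩ := (Pool.Agent.D0H43.Q4.P.evnK e D).1 hD
    have h1 : ∀ p ∈ Pool.Agent.D0H43.Q4.P.S5, p ∈ Pool.Agent.D0H43.Q4.P.S4 := by decide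
    exact (Pool.Agent.D0H43.Q4.P.notOneK e D).2 ⟨p, h1 p hp, Δ, hΔ, h⟩
  obtain ⟨j1, j2, j3, j4, j5, j6, j7⟩ := Pool.Agent.D0H43.JQ.joint K
  obtain ⟨-, -, -, m1, m2, m3⟩ := Pool.Agent.D0H43.Q4.P.finalR Pool.Agent.D0H43.Q4.P.all6
    Pool.Agent.D0H10.Q4.sqfK K
  have m4 := (Pool.Agent.D0H43.Q4.P.all6.mono (S' := Pool.Agent.D0H43.Q4.P.S4) (by decide)).lim
    ⟨(1, 0), by decide⟩ e he Pool.Agent.D0H43.Q4.P.NotOne (Pool.Agent.D0H43.Q4.P.notOneK e)
  have conv : ∀ (P Q T T' : 𝓞 K → Prop) (x : ℝ), (∀ D, P D → (T D ↔ T' D)) →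
      Tendsto (fun X : ℕ => ({D : 𝓞 K | Algebra.norm ℤ D ≤ X ∧ P D ∧ T D}.ncard : ℝ) /
        ({D : 𝓞 K | Algebra.norm ℤ D ≤ X ∧ Q D}.ncard : ℝ)) atTop (nhds x) →
      Tendsto (proportion P Q T') atTop (nhds x) := by
    intro P Q T T' x hT h
    refine h.congr fun X => ?_
    unfold proportion
    congr 3
    ext D
    constructor
    · rintro ⟨a1, a2, a3⟩
      exact ⟨a1, a2, (hT D a2).1 a3⟩
    · rintro ⟨a1, a2, a3⟩
      exact ⟨a1, a2, (hT D a2).2 a3⟩
  have c1 : (0.4194 : ℝ) ≤ c := Pool.Agent.D0H10.Q4.Num.c2_ge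
  have c2 : c < 0.4195 := Pool.Agent.D0H43.JQ.c2_lt
  refine ⟨fun D hD => ⟨Pool.Agent.D0H43.JQ.killed_eq K i hi D hD, a0 D hD⟩,
    fun D hD => ⟨a1 D (notEven D hD), a2 D (notEven D hD)⟩, fun D hD => (a3 D hD).2,
    fun D hD h => killed_of hD.1.ne_zero (fun t ht => dvd_ne hD.1.ne_zero ht.1)
      (Pool.Agent.D0H43.MQ.pkN1 Pool.Agent.D0H10.Q4.bd Pool.Agent.D0H43.Q4.P.bo hD
        ((hne D hD.1).2 h)),
    fun D hD h => killed_of hD.1.ne_zero (fun t ht => dvd_ne hD.1.ne_zero ht.1)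
      (Pool.Agent.D0H43.MQ.pkN2 Pool.Agent.D0H10.Q4.bd Pool.Agent.D0H43.Q4.P.bo hD
        ((hne D hD.1).2 h.1) ((hne _ (hneg D hD.1)).2 h.2)),
    conv _ _ _ _ _ (fun D hD => (hB D hD.1).trans (a2 D (notOdd D hD))) j1,
    conv _ _ _ _ _ (fun D hD => (a3 D hD).1.trans (a3 D hD).2) m2,
    ⟨conv _ _ _ _ _ (fun D hD => (hne D hD.1).trans (a1 D (notEven D hD))) m1,
      conv _ _ _ _ _ (fun D hD => (hB D hD.1).trans (a2 D (notEven D hD))) j2,
      conv _ _ _ _ _ (fun D hD => hO D hD.1) j3⟩,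
    ⟨conv _ _ _ _ _ (fun D hD => (hne D hD.1).trans (a1 D hD)) m4,
      conv _ _ _ _ _ (fun D hD => (hB D hD.1).trans (a2 D hD)) j4,
      conv _ _ _ _ _ (fun D hD => hO D hD.1) j5⟩,
    ⟨conv _ _ _ _ _ (fun D hD => (hne D hD.1).trans (a1 D hD)) m3,
      conv _ _ _ _ _ (fun D hD => (hB D hD.1).trans (a2 D hD)) j6,
      conv _ _ _ _ _ (fun D hD => hO D hD.1) j7⟩,
    c1, c2, by nlinarith⟩

end Pool.Agent.Results.MP_a3f657_nt.JointLawByDivisors
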