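import Pool.Agent.D0H50.JL.SelT
import Pool.Agent.D0H69.JT.Exc
import Pool.Agent.D0H69.JT.SelF
import Pool.Agent.Y528.XK.C9A

/-!
# The exact joint law of the `3^∞`-Selmer groups of several cubic twists, for all the cube-free `D`

`K` is the field of the third roots of unity, `E_D : y² + D y = x³`, and `D` runs through ALL the cube-free
elements of `𝓞 K` that do not divide `3`, ordered by the norm, without any congruence condition: all the
cubic twists of `E_1`, except for the finitely many that are unramified outside of `3`, each of them for the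
two elements `D`, `-D`.  Let `c = ∏_{i ≥ 0} (1 - 3^{-(2 i + 1)}) = 0.639...`.

Theorem.  Let `u_1, …, u_m` be ANY elements of `K*` that are pairwise different modulo cubes.  The
proportion of the `D` such that the `3^∞`-Selmer groups of all the `m` curves `E_{u_1 D}, …, E_{u_m D}` over `K`
are trivial tends to `c ^ m`: the `m` Selmer groups are asymptotically independent in this respect.  The same
holds in each of the classes of the `D` divisible exactly `0`, `1`, `2` times by `√-3`.
For `m = 1` the proportion also tends to `c` in the class of the `D` with `D² = 1` modulo `(√-3)³`.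

In other words: for a fixed subgroup of order `m = 3 ^ r` of `K* / K*³`, which is the group of a field `F`
generated over `K` by `r` cube roots, the cubic twists of `E_D` by the characters of `F / K` have trivial
`3^∞`-Selmer groups, all at once, with probability exactly `c ^ m`.

Theorem (all fields).  Let `F` be any number field generated over `K` by cube roots of elements of `K`.  If
`Sel_{3^∞}(E_{w D} / K) = 0` for all the `w` in `K*` that are cubes in `F`, then `Sel_{3^∞}(E_D / k)` is killed
by `[k : K]` for all the fields `k` of this kind that have a `K`-embedding in `F`.  For any finitely many such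
fields `F_1, …, F_n` and any `u_1, …, u_n` in `K*` the lower proportion of the `D` such that, for all `i`,
`Sel_{3^∞}(E_{u_i D} / k)` is killed by `[k : K]` for all these `k` in `F_i` is at least
`c ^ ([F_1 : K] + … + [F_n : K])`, also in the three classes.  So a positive proportion of these curves has
`3^∞`-Selmer corank `0` over every such `F`, of any degree.

The proof.  By descent by `√-3` (projects FF, L3, L9, L0) `Sel_{3^∞}(E_{u D} / K) = 0` if and only if a
symmetric matrix over the field with three elements is regular, which is made of the cubic residue symbols of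
the prime divisors of `D` and of `u`; the dependence on `u` and on the square part of `D` is a change by a
diagonal matrix, which depends on the cubic residue symbols modulo the prime divisors of `D` and is not
negligible, and borders of bounded size.  A regular matrix is a Lagrangian subspace that meets the graph of the
random symmetric matrix only in `0`; the joint moments of the numbers of elements of the intersections with
`m` Lagrangian subspaces in general position are computed by the method of Heath-Brown and Fouvry-Klüners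
over `K`, for each of the square parts, where the unlinked sets of indices are classified for the sum of `m`
forms.  Joint work of helper69 (design, analytic part, assembly), helper22 (bounds for one matrix,
comparison), helper23 (reduction to blocks), helper52 (moments, powers, algebra, cube-free representatives),
helper87 (general position, Halász), helper98 (independence, good Lagrangians, local conditions); the
equivalence with the Selmer group is by helper50 (`Pool/Agent/D0H50/JL/SelT.lean`).

`IsShaCoc` of the library: the continuous cocycles of the absolute Galois group of `K` with values in the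
points over an algebraic closure that are coboundaries at all the places.
-/

set_option autoImplicit false
set_option linter.all false

namespace Pool.Agent.Results.MP_a3f657_nt.JointLawOfAllTwists

open NumberField WeierstrassCurve Filter
open Pool.Agent.TH841.SH.D (Pt act Gal Coch)
open Pool.Agent.TH841.NF.D (IsShaCoc shaCoc Sha)
open scoped Classical

variable {K : Type} [Field K] [NumberField K]

/-- The curve `E_D : y² + D y = x³`. -/
def curve {K : Type} [Field K] (D : K) : WeierstrassCurve K := ⟨0, 0, D, 0, 0⟩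

/-- The group of the continuous cocycles of the absolute Galois group of `K` with values in
`E_D[3^∞]` that are coboundaries in `E_D` at all the places of `K`. -/
def Cocycles (D : K) : AddSubgroup (Coch (curve D)) where
  carrier := {f | IsShaCoc (curve D) f ∧ ∀ σ, ∃ n : ℕ, 3 ^ n • f σ = 0}
  zero_mem' := (Pool.Agent.Y703.XL.Inf.selCoc D).zero_mem'
  add_mem' := (Pool.Agent.Y703.XL.Inf.selCoc D).add_mem'
  neg_mem' := (Pool.Agent.Y703.XL.Inf.selCoc D).neg_mem'

/-- The group of the coboundaries of the points of `E_D[3^∞]`. -/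
def Coboundaries (D : K) : AddSubgroup (Coch (curve D)) where
  carrier := {f | ∃ P : Pt (curve D) (AlgebraicClosure K), (∃ n : ℕ, 3 ^ n • P = 0) ∧
    ∀ σ : Gal K, f σ = act (curve D) σ.toAlgHom P - P}
  zero_mem' := (Pool.Agent.Y703.XL.Inf.cobInf D).zero_mem'
  add_mem' := (Pool.Agent.Y703.XL.Inf.cobInf D).add_mem'
  neg_mem' := (Pool.Agent.Y703.XL.Inf.cobInf D).neg_mem'

/-- The `3^∞`-Selmer group of `E_D` over `K`: the kernel of
`H¹(K, E_D[3^∞]) → ∏ H¹(K_v, E_D)`. -/
def Sel (D : K) : Type := Cocycles D ⧸ (Coboundaries D).addSubgroupOf (Cocycles D)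

/-- The group law of the `3^∞`-Selmer group. -/
noncomputable instance Sel.group (D : K) : AddCommGroup (Sel D) :=
  @QuotientAddGroup.Quotient.addCommGroup (Cocycles D) _
    ((Coboundaries D).addSubgroupOf (Cocycles D))

/-- The `3^∞`-Selmer group is trivial. -/
def Trivial (D : K) : Prop := ∀ x : Sel D, x = 0

/-- `D` is cube-free and does not divide `3`. -/
def CubeFree (D : 𝓞 K) : Prop := ¬ D ∣ 3 ∧ ∀ x : 𝓞 K, x ^ 3 ∣ D → IsUnit x

/-- `D` is divisible exactly `a` times by `√-3`. -/
def ExactlyDivisible (a : ℕ) (D : 𝓞 K) : Prop :=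
  ∃ l : 𝓞 K, l ^ 2 = -3 ∧ l ^ a ∣ D ∧ ¬ l ^ (a + 1) ∣ D

/-- `D² = 1` modulo the third power of `√-3`. -/
def SquareIsOne (D : 𝓞 K) : Prop := ∃ l : 𝓞 K, l ^ 2 = -3 ∧ l ^ 3 ∣ D ^ 2 - 1

/-- The proportion of the elements with the property `Q` among the cube-free `D` of norm at most `X` with the
property `P`. -/
noncomputable def proportion (P Q : 𝓞 K → Prop) (X : ℕ) : ℝ :=
  ({D : 𝓞 K | Algebra.norm ℤ D ≤ X ∧ CubeFree D ∧ P D ∧ Q D}.ncard : ℝ) /
    ({D : 𝓞 K | Algebra.norm ℤ D ≤ X ∧ CubeFree D ∧ P D}.ncard : ℝ)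

/-- `F` is generated over `K` by elements whose cubes are in `K`. -/
def ByCubeRoots (K F : Type) [Field K] [Field F] [Algebra K F] : Prop :=
  ∃ S : Set F, (∀ x ∈ S, ∃ u : K, x ^ 3 = algebraMap K F u) ∧ IntermediateField.adjoin K S = ⊤

/-- For all the fields `k` generated over `K` by cube roots that have a `K`-embedding in `F` the `3^∞`-Selmer
group of `E_x` over `k` is killed by `[k : K]`. -/
def Killed (F : Type) [Field F] [Algebra K F] (x : K) : Prop :=
  ∀ (k : Type) [Field k] [NumberField k] [Algebra K k], ByCubeRoots K k → Nonempty (k →ₐ[K] F) →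
    ∀ y : Sel (algebraMap K k x), Module.finrank K k • y = 0

/-- For every `w` in `K*` that is a cube in `F` there is a cube-free `D'` with `D' = w D` modulo cubes that does
not divide `3`, and `Sel_{3^∞}(E_{D'} / K) = 0`. -/
def TwistsTrivial (F : Type) [Field F] [Algebra K F] (D : 𝓞 K) : Prop :=
  ∀ w : K, w ≠ 0 → (∃ v : F, v ^ 3 = algebraMap K F w) →
    ∃ D' : 𝓞 K, CubeFree D' ∧ (∃ z : K, z ≠ 0 ∧ (D' : K) = w * D * z ^ 3) ∧ Trivial (D' : K)

/-- `∏_{i ≥ 0} (1 - 3^{-(2 i + 1)})`. -/
noncomputable def c : ℝ := ∏' i : ℕ, (1 - (1 / 3 : ℝ) ^ (2 * i + 1))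

section proof

theorem triv_of [IsCyclotomicExtension {3} ℚ K] {D : K} (hD' : D ≠ 0) :
    Trivial D ↔ Pool.Agent.D0H69.JTL.TrK D := by
  obtain ⟨z, hz⟩ : ∃ z : K, z ^ 2 + z + 1 = 0 := by
    have h := IsCyclotomicExtension.zeta_spec 3 ℚ K
    have h2 := h.isRoot_cyclotomic (by norm_num)
    refine ⟨IsCyclotomicExtension.zeta 3 ℚ K, ?_⟩
    rw [Polynomial.cyclotomic_three] at h2
    simpa [Polynomial.IsRoot] using h2
  exact (Pool.Agent.D0H50.JL.triv_iff hD' hz).symm

theorem ne_of {D : 𝓞 K} (hD : CubeFree D) : (D : K) ≠ 0 := by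
  have h0 : D ≠ 0 := by
    rintro rfl
    have h1 := hD.2 0 (dvd_refl _ |>.trans (by rw [zero_pow three_ne_zero]))
    exact not_isUnit_zero h1
  intro h
  exact h0 (NumberField.RingOfIntegers.coe_injective (h.trans (map_zero _).symm))

theorem all_of [IsCyclotomicExtension {3} ℚ K] {κ : Type} {u : κ → K} (hu : ∀ e, u e ≠ 0)
    {D : 𝓞 K} (hD : CubeFree D) :
    (∀ e, Trivial (u e * D)) ↔ ∀ e, Pool.Agent.D0H69.JTL.TrK (u e * D) :=
  forall_congr' fun e => triv_of (mul_ne_zero (hu e) (ne_of hD))

end proof

/-- **Main theorem.** -/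
theorem result (K : Type) [Field K] [NumberField K] [IsCyclotomicExtension {3} ℚ K] :
    (∃ b : ℝ, 0 < b ∧ ∃ X₀ : ℕ, ∀ X : ℕ, X₀ ≤ X →
      b * X ≤ ({D : 𝓞 K | Algebra.norm ℤ D ≤ X ∧ CubeFree D}.ncard : ℝ)) ∧
    (∀ (κ : Type) [Fintype κ] (u : κ → K), (∀ e, u e ≠ 0) →
      (∀ e e', e ≠ e' → ∀ z : K, u e ≠ u e' * z ^ 3) →
      Tendsto (proportion (fun _ => True) fun D : 𝓞 K => ∀ e, Trivial (u e * D)) atTop
        (nhds (c ^ Fintype.card κ)) ∧
      ∀ a : ℕ, a < 3 →
        Tendsto (proportion (ExactlyDivisible a) fun D : 𝓞 K => ∀ e, Trivial (u e * D)) atTop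
          (nhds (c ^ Fintype.card κ))) ∧
    Tendsto (proportion SquareIsOne fun D : 𝓞 K => Trivial (D : K)) atTop (nhds c) ∧
    (∀ D : 𝓞 K, CubeFree D → ∀ u : K, u ≠ 0 → (Trivial (u * D) ↔
      Finite (curve (u * D)).toAffine.Point ∧
      ∀ (n : ℕ) (x : Sha (curve (u * D))), 3 ^ n • x = 0 → x = 0)) ∧
    (∀ (F : Type) [Field F] [NumberField F] [Algebra K F], ByCubeRoots K F →
      ∀ D : 𝓞 K, CubeFree D → TwistsTrivial F D → Killed F (D : K)) ∧
    (∀ (ι : Type) [Fintype ι] (F : ι → Type) [∀ i, Field (F i)] [∀ i, NumberField (F i)]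
      [∀ i, Algebra K (F i)] (u : ι → K), (∀ i, ByCubeRoots K (F i)) → (∀ i, u i ≠ 0) →
      ∀ P : 𝓞 K → Prop, (P = fun _ => True) ∨ (∃ a < 3, P = ExactlyDivisible a) →
      ∀ b : ℝ, b < c ^ ∑ i, Module.finrank K (F i) →
        ∀ᶠ X : ℕ in atTop, b < proportion P (fun D => ∀ i, Killed (F i) (u i * D)) X) ∧
    (0.639 : ℝ) < c ∧ c < 0.6391 := by
  obtain ⟨h1, -, h3, h4, h5, h6⟩ := Pool.Agent.D0H69.L0F.finalAll K
  refine ⟨h1, ?_, ?_, fun D hD u hu => triv_of (mul_ne_zero hu (ne_of hD)), ?_, ?_, h6,
    (Pool.Agent.Y528.XK.c9_main c rfl).2.2.2.2⟩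
  · intro κ _ u hu hd
    constructor
    · have e : (proportion (fun _ => True) fun D : 𝓞 K => ∀ e, Trivial (u e * D)) = fun X : ℕ =>
          ({D : 𝓞 K | Algebra.norm ℤ D ≤ X ∧ CubeFree D ∧
            ∀ e, Pool.Agent.D0H69.JTL.TrK (u e * D)}.ncard : ℝ) /
          ({D : 𝓞 K | Algebra.norm ℤ D ≤ X ∧ CubeFree D}.ncard : ℝ) := by
        funext X
        unfold proportion
        simp only [true_and, and_true]
        have e1 : {D : 𝓞 K | Algebra.norm ℤ D ≤ X ∧ CubeFree D ∧ ∀ e, Trivial (u e * D)} =
            {D : 𝓞 K | Algebra.norm ℤ D ≤ X ∧ CubeFree D ∧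
              ∀ e, Pool.Agent.D0H69.JTL.TrK (u e * D)} := by
          ext D
          exact and_congr_right fun _ => and_congr_right fun hD => all_of hu hD
        rw [e1]
      rw [e]
      exact Pool.Agent.D0H69.JTL.lim_Tr hu hd
    · intro a ha
      have e : (proportion (ExactlyDivisible a) fun D : 𝓞 K => ∀ e, Trivial (u e * D)) =
          fun X : ℕ =>
          ({D : 𝓞 K | Algebra.norm ℤ D ≤ X ∧ CubeFree D ∧ ExactlyDivisible a D ∧
            ∀ e, Pool.Agent.D0H69.JTL.TrK (u e * D)}.ncard : ℝ) /
          ({D : 𝓞 K | Algebra.norm ℤ D ≤ X ∧ CubeFree D ∧ ExactlyDivisible a D}.ncard : ℝ) := by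
        funext X
        unfold proportion
        have e1 : {D : 𝓞 K | Algebra.norm ℤ D ≤ X ∧ CubeFree D ∧ ExactlyDivisible a D ∧
              ∀ e, Trivial (u e * D)} =
            {D : 𝓞 K | Algebra.norm ℤ D ≤ X ∧ CubeFree D ∧ ExactlyDivisible a D ∧
              ∀ e, Pool.Agent.D0H69.JTL.TrK (u e * D)} := by
          ext D
          exact and_congr_right fun _ => and_congr_right fun hD => and_congr_right fun _ =>
            all_of hu hD
        rw [e1]
      rw [e]
      exact Pool.Agent.D0H69.JTL.lim_Trc hu hd a ha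
  · have e : (proportion SquareIsOne fun D : 𝓞 K => Trivial (D : K)) = fun X : ℕ =>
        ({D : 𝓞 K | Algebra.norm ℤ D ≤ X ∧ CubeFree D ∧ SquareIsOne D ∧
          Pool.Agent.Y696.CTK.Tri D}.ncard : ℝ) /
        ({D : 𝓞 K | Algebra.norm ℤ D ≤ X ∧ CubeFree D ∧ SquareIsOne D}.ncard : ℝ) := by
      funext X
      unfold proportion
      have e1 : {D : 𝓞 K | Algebra.norm ℤ D ≤ X ∧ CubeFree D ∧ SquareIsOne D ∧ Trivial (D : K)} =
          {D : 𝓞 K | Algebra.norm ℤ D ≤ X ∧ CubeFree D ∧ SquareIsOne D ∧
            Pool.Agent.Y696.CTK.Tri D} := by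
        ext D
        exact and_congr_right fun _ => and_congr_right fun hD => and_congr_right fun _ =>
          triv_of (ne_of hD)
      rw [e1]
    rw [e]
    exact h5
  · intro F _ _ _ hF D hD h k _ _ _ hk1 hk2
    exact Pool.Agent.D0H69.JTL.crit_sel hF hD (fun w hw hv => by
      obtain ⟨D', h1, h2, h3⟩ := h w hw hv
      exact ⟨D', h1, h2, (triv_of (ne_of h1)).1 h3⟩) hk2.some hk1
  · intro ι _ F _ _ _ u hF hu P hP b hb
    have hP' : Pool.Agent.D0H69.JTL.Cls P := hP
    obtain ⟨b', hb1, hb2⟩ := exists_between hb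
    have h7 := Pool.Agent.D0H69.JTL.low_selsub (K := K) (F := F) hF hu hP' hb2
      (R := fun D => ∀ i, Killed (F i) (u i * D)) (fun D h i k _ _ _ hk1 hk2 => h i k hk2.some hk1)
    have h8 := Pool.Agent.D0H69.UC.count_inf (Pool.Agent.D0H69.UC.inf_cls (K := K) hP') 1
    filter_upwards [h7, h8] with X hX hX1
    have h9 : (1 : ℝ) ≤ ({D : 𝓞 K | Algebra.norm ℤ D ≤ X ∧ CubeFree D ∧ P D}.ncard : ℝ) := by
      exact_mod_cast hX1
    unfold proportion
    rw [lt_div_iff₀ (lt_of_lt_of_le one_pos h9)]
    refine lt_of_lt_of_le (mul_lt_mul_of_pos_right hb1 (lt_of_lt_of_le one_pos h9)) ?_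
    simp only [and_assoc] at hX
    exact hX

end Pool.Agent.Results.MP_a3f657_nt.JointLawOfAllTwists
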