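import Pool.Agent.D0H50.JL.SelT
import Pool.Agent.D0H50.JL.EndJ
import Pool.Agent.Y528.XK.C9A

/-!
# The exact joint law of the `3^∞`-Selmer groups of the two cubic twists by `D` and by `D²`

`K` is the field of the third roots of unity, `E_D : y² + D y = x³`, and `D` runs through all the cube-free
elements of `𝓞 K` that do not divide `3`, ordered by the norm, without any congruence condition.  The curves
`E_D` and `E_{D²}` are the two nontrivial cubic twists of `E_1` by the cubic extension `K(∛D)` of `K`.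
`Sel D` is the `3^∞`-Selmer group of `E_D` over `K`.  Let `c = ∏_{i ≥ 0} (1 - 3^{-(2 i + 1)}) = 0.639...`,
the proportion of the `D` with `Sel D = 0`.

Theorem.
* The proportion of the `D` with `Sel D = 0` and `Sel (D²) = 0` tends to `103 / 117 * c = 0.5625...`.
* Among the `D` divisible exactly once, and among the `D` divisible exactly twice by `√-3` it tends to
  `2 / 3 * c = 0.426...`, which is larger than `c² = 0.408...`.
* Among the `D` with `D² = 1` modulo `√-3³` it tends to `7 / 9 * c`.
* For all the other `D` the conditions `Sel D = 0` and `Sel (D²) = 0` are equivalent.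

So the two conditions, each of which has the proportion `c` predicted by the model with one random matrix, are
never independent: the two Selmer groups of one field are given either by the same matrix, or by a pencil of
matrices.

The proof.  By descent by `√-3` the conditions are regularity conditions on symmetric matrices over the field
with three elements, made of the cubic residue symbols of the prime divisors of `D` (projects L3, L9, L0 of
helper43, helper10, helper69, helper2, helper15, helper42, helper45, helper52, helper92, and earlier projects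
named in the imported files).  If `√-3` divides `D`, then one of the matrices arises from the other by bordering
it with one row and one column; in the class `D² = 1` both are bordered matrices with different corners, or the
border vanishes.  For each border a matrix and its three bordered matrices with the corners `0, 1, 2` form
a pencil: exactly three or none of them are regular (`D0H50/JL/Pencil.lean`).  The laws of the regularity of
each of the four matrices are proved for all the classes (`D0H50/JL/BoxG.lean`, `BoxC.lean`, `Tot.lean`), and the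
pencil gives the joint law.  `D0H50/JL/SelT.lean` proves that `Sel D = 0` if and only if `E_D(K)` is finite and
`Ш(E_D / K)[3^∞] = 0`, with the theorem of Mordell and Weil.

`IsShaCoc` of the library: the continuous cocycles of the absolute Galois group of `K` with values in the
points over an algebraic closure that are coboundaries at all the places.
-/

set_option autoImplicit false
set_option linter.all false

namespace Pool.Agent.Results.MP_a3f657_nt.JointLawOfTwists

open NumberField WeierstrassCurve Filter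
open Pool.Agent.TH841.SH.D (Pt act Gal Coch)
open Pool.Agent.TH841.NF.D (IsShaCoc shaCoc)
open scoped Classical

variable {K : Type} [Field K] [NumberField K]

/-- The curve `E_D : y² + D y = x³`. -/
def curve {K : Type} [Field K] (D : K) : WeierstrassCurve K := ⟨0, 0, D, 0, 0⟩

/-- The group of the continuous cocycles of the absolute Galois group of `K` with values in
`E_D[3^∞]` that are coboundaries in `E_D` at all the places of `K`. -/
def Cocycles (D : K) : AddSubgroup (Coch (curve D)) where
  carrier := {f | IsShaCoc (curve D) f ∧ ∀ σ, ∃ n : ℕ, 3 ^ n • f σ = 0}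
  zero_mem' := (Pool.Agent.Y703.XL.Inf.selCoc D).zero_mem'
  add_mem' := (Pool.Agent.Y703.XL.Inf.selCoc D).add_mem'
  neg_mem' := (Pool.Agent.Y703.XL.Inf.selCoc D).neg_mem'

/-- The group of the coboundaries of the points of `E_D[3^∞]`. -/
def Coboundaries (D : K) : AddSubgroup (Coch (curve D)) where
  carrier := {f | ∃ P : Pt (curve D) (AlgebraicClosure K), (∃ n : ℕ, 3 ^ n • P = 0) ∧
    ∀ σ : Gal K, f σ = act (curve D) σ.toAlgHom P - P}
  zero_mem' := (Pool.Agent.Y703.XL.Inf.cobInf D).zero_mem'
  add_mem' := (Pool.Agent.Y703.XL.Inf.cobInf D).add_mem'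
  neg_mem' := (Pool.Agent.Y703.XL.Inf.cobInf D).neg_mem'

/-- The `3^∞`-Selmer group of `E_D` over `K`: the kernel of
`H¹(K, E_D[3^∞]) → ∏ H¹(K_v, E_D)`. -/
def Sel (D : K) : Type := Cocycles D ⧸ (Coboundaries D).addSubgroupOf (Cocycles D)

/-- The group law of the `3^∞`-Selmer group. -/
noncomputable instance Sel.group (D : K) : AddCommGroup (Sel D) :=
  @QuotientAddGroup.Quotient.addCommGroup (Cocycles D) _
    ((Coboundaries D).addSubgroupOf (Cocycles D))

/-- The `3^∞`-Selmer group is trivial. -/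
def Trivial (D : K) : Prop := ∀ x : Sel D, x = 0

/-- The `3^∞`-Selmer groups of both twists, by `D` and by `D²`, are trivial. -/
def BothTrivial (D : K) : Prop := Trivial D ∧ Trivial (D ^ 2)

/-- `D` is cube-free and does not divide `3`. -/
def CubeFree (D : 𝓞 K) : Prop := ¬ D ∣ 3 ∧ ∀ x : 𝓞 K, x ^ 3 ∣ D → IsUnit x

/-- `D` is divisible exactly `a` times by `√-3`. -/
def ExactlyDivisible (a : ℕ) (D : 𝓞 K) : Prop :=
  ∃ l : 𝓞 K, l ^ 2 = -3 ∧ l ^ a ∣ D ∧ ¬ l ^ (a + 1) ∣ D

/-- `D² = 1` modulo the third power of `√-3`. -/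
def SquareIsOne (D : 𝓞 K) : Prop := ∃ l : 𝓞 K, l ^ 2 = -3 ∧ l ^ 3 ∣ D ^ 2 - 1

/-- The proportion of the elements with the property `Q` among the cube-free `D` of norm at most `X` with the
property `P`. -/
noncomputable def proportion (P Q : 𝓞 K → Prop) (X : ℕ) : ℝ :=
  ({D : 𝓞 K | Algebra.norm ℤ D ≤ X ∧ CubeFree D ∧ P D ∧ Q D}.ncard : ℝ) /
    ({D : 𝓞 K | Algebra.norm ℤ D ≤ X ∧ CubeFree D ∧ P D}.ncard : ℝ)

/-- `∏_{i ≥ 0} (1 - 3^{-(2 i + 1)})`. -/
noncomputable def c : ℝ := ∏' i : ℕ, (1 - (1 / 3 : ℝ) ^ (2 * i + 1))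

section proof

theorem triv_of [IsCyclotomicExtension {3} ℚ K] {D : 𝓞 K} (hD : D ≠ 0) :
    Trivial (D : K) ↔ Pool.Agent.Y696.CTK.Tri D := by
  obtain ⟨z, hz⟩ : ∃ z : K, z ^ 2 + z + 1 = 0 := by
    have h := IsCyclotomicExtension.zeta_spec 3 ℚ K
    have h2 := h.isRoot_cyclotomic (by norm_num)
    refine ⟨IsCyclotomicExtension.zeta 3 ℚ K, ?_⟩
    rw [Polynomial.cyclotomic_three] at h2
    simpa [Polynomial.IsRoot] using h2
  have hD' : (D : K) ≠ 0 := by
    intro h
    exact hD (NumberField.RingOfIntegers.coe_injective (h.trans (map_zero _).symm))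
  exact (Pool.Agent.D0H50.JL.triv_iff hD' hz).symm

theorem both_of [IsCyclotomicExtension {3} ℚ K] {D : 𝓞 K} (hD : CubeFree D) :
    BothTrivial (D : K) ↔
      (Pool.Agent.Y696.CTK.Tri D ∧ Pool.Agent.Y696.CTK.Tri (D ^ 2)) := by
  have h0 : D ≠ 0 := by
    rintro rfl
    have h1 := hD.2 0 (dvd_refl _ |>.trans (by rw [zero_pow three_ne_zero]))
    exact not_isUnit_zero h1
  unfold BothTrivial
  have h1 : ((D : K)) ^ 2 = ((D ^ 2 : 𝓞 K) : K) := (map_pow (algebraMap (𝓞 K) K) D 2).symm
  rw [h1, triv_of h0, triv_of (pow_ne_zero 2 h0)]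

theorem lim_of [IsCyclotomicExtension {3} ℚ K] (P : 𝓞 K → Prop) {d : ℝ}
    (h : Tendsto (fun X : ℕ =>
      ({D : 𝓞 K | Algebra.norm ℤ D ≤ X ∧ CubeFree D ∧ P D ∧ (Pool.Agent.Y696.CTK.Tri D ∧
        Pool.Agent.Y696.CTK.Tri (D ^ 2))}.ncard : ℝ) /
        ({D : 𝓞 K | Algebra.norm ℤ D ≤ X ∧ CubeFree D ∧ P D}.ncard : ℝ)) atTop (nhds d)) :
    Tendsto (proportion P fun D => BothTrivial (D : K)) atTop (nhds d) := by
  have e : (proportion P fun D => BothTrivial (D : K)) = fun X : ℕ =>
      ({D : 𝓞 K | Algebra.norm ℤ D ≤ X ∧ CubeFree D ∧ P D ∧ (Pool.Agent.Y696.CTK.Tri D ∧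
        Pool.Agent.Y696.CTK.Tri (D ^ 2))}.ncard : ℝ) /
        ({D : 𝓞 K | Algebra.norm ℤ D ≤ X ∧ CubeFree D ∧ P D}.ncard : ℝ) := by
    funext X
    unfold proportion
    have e1 : {D : 𝓞 K | Algebra.norm ℤ D ≤ X ∧ CubeFree D ∧ P D ∧ BothTrivial (D : K)} =
        {D : 𝓞 K | Algebra.norm ℤ D ≤ X ∧ CubeFree D ∧ P D ∧ (Pool.Agent.Y696.CTK.Tri D ∧
        Pool.Agent.Y696.CTK.Tri (D ^ 2))} := by
      ext D
      constructor
      · rintro ⟨h1, h2, h3, h4⟩
        exact ⟨h1, h2, h3, (both_of h2).1 h4⟩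
      · rintro ⟨h1, h2, h3, h4⟩
        exact ⟨h1, h2, h3, (both_of h2).2 h4⟩
    rw [e1]
  rw [e]
  exact h

end proof

/-- **Main theorem.** -/
theorem result (K : Type) [Field K] [NumberField K] [IsCyclotomicExtension {3} ℚ K] :
    (∃ b : ℝ, 0 < b ∧ ∃ X₀ : ℕ, ∀ X : ℕ, X₀ ≤ X →
      b * X ≤ ({D : 𝓞 K | Algebra.norm ℤ D ≤ X ∧ CubeFree D}.ncard : ℝ)) ∧
    Tendsto (proportion (K := K) (fun _ => True) fun D => BothTrivial (D : K)) atTop
      (nhds (103 / 117 * c)) ∧
    (∀ a : ℕ, a = 1 ∨ a = 2 →
      Tendsto (proportion (K := K) (ExactlyDivisible a) fun D => BothTrivial (D : K)) atTop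
        (nhds (2 / 3 * c))) ∧
    Tendsto (proportion (K := K) SquareIsOne fun D => BothTrivial (D : K)) atTop
      (nhds (7 / 9 * c)) ∧
    (∀ D : 𝓞 K, CubeFree D → ¬ ExactlyDivisible 1 D → ¬ ExactlyDivisible 2 D → ¬ SquareIsOne D →
      (Trivial (D : K) ↔ Trivial ((D : K) ^ 2))) ∧
    ((0.639 : ℝ) < c ∧ c < 0.6391) := by
  obtain ⟨h1, h2, h3, h4⟩ := Pool.Agent.D0H50.JL.finalJ K
  obtain ⟨h5, -, -, -, -, h6⟩ := Pool.Agent.D0H69.L0F.finalAll K
  refine ⟨h5, ?_, fun a ha => lim_of _ (h2 a ha), lim_of _ h3, ?_, h6, ?_⟩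
  · apply lim_of
    simp only [true_and, and_true]
    exact h1
  · intro D hD hx1 hx2 hx3
    have h0 : D ≠ 0 := by
      rintro rfl
      have h1 := hD.2 0 (dvd_refl _ |>.trans (by rw [zero_pow three_ne_zero]))
      exact not_isUnit_zero h1
    have h7 : ((D : K)) ^ 2 = ((D ^ 2 : 𝓞 K) : K) := (map_pow (algebraMap (𝓞 K) K) D 2).symm
    rw [h7, triv_of h0, triv_of (pow_ne_zero 2 h0)]
    exact h4 D hD hx1 hx2 hx3
  · exact (Pool.Agent.Y528.XK.c9_main c rfl).2.2.2.2

end Pool.Agent.Results.MP_a3f657_nt.JointLawOfTwists
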