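import Pool.Agent.D0H10.Q5.AvH
import Pool.Agent.D0H98.Q5.LA2

/-!
# The `2^∞`-Selmer groups of the quartic twists of `y² = x³ - x` over `ℚ(i)`

`K = ℚ(i)`, `E_D : y² = x³ + D x`, and `D` runs through the elements of `𝓞 K = ℤ[i]` of one of the two
kinds:

* `D` is squarefree and `D = i` modulo `2` (one third of all the squarefree `D`);
* `D = 2 Δ` with `Δ` squarefree and `Δ = 1` modulo `2 + 2 i`.

`Sel D` is the `2^∞`-Selmer group of `E_D` over `K`, and `killed i D` is the kernel of the endomorphism
`1 + i` on it.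

* `killed i D` has order `2 ^ r` for some `r`, and `2 ^ rank * #Ш[2] ≤ 4 ^ r`; `r = 0` if and only if
  `Sel D = 0`.
* For every `r` the proportion of the `D` with `killed i D` of order `2 ^ r` tends to
  `∏_{j ≥ 0} (1 - 2^{-(2 j + 1)}) / ((2 - 1) (4 - 1) ⋯ (2 ^ r - 1))`, in the whole family and in each of
  the two kinds; these limits sum to one, and the limit for `r = 0` is `0.4194...`.
* Among ALL the squarefree `D` of `ℤ[i]`, the proportion of the `D = i` modulo `2` with `killed i D` of
  order `2 ^ r` tends to one third of this number.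
* The average order of `killed i D` tends to `2`, in the whole family and in each of the two kinds.

In particular the rank of `E_D(K)` as a module over `ℤ[i]` is at most one for at least `83.8` percent of
the family. The law is the law of the corank of a random symmetric matrix over the field with two
elements: the endomorphism `1 + i` makes it different from the law of the conjecture for all curves.

The starting results of this problem on twist families are on the prime `3` and the cubic twists of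
`y² + y = x³`. Here the prime is `2` and the twisting character is quartic: a kernel vector of the matrix
of the quadratic residue symbols of the prime factors of `D` gives two classes in the Selmer group of
`1 + i`, and these are all (`Pool/Agent/D0H10/Q5/{Up,Low,Cnt}.lean`); the corank of the matrix has this
law by the large sieve (`Pool/Agent/D0H10/Q5/Dis.lean`, after helper45) and a theorem on random symmetric
completions (`Pool/Agent/D0H98/Q5/LA2.lean`, helper98). The average order is the sum of a product of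
quadratic residue symbols over the factorisations `D = a b c e`, estimated with bilinear sums and mean
values of multiplicative functions (`Pool/Agent/D0H10/Q5/Av*.lean`).

`IsShaCoc` of the library: the continuous cocycles of the absolute Galois group of `K` with values
in the points over an algebraic closure that are coboundaries at all the places; `Sha` is their group
modulo the coboundaries.

Joint work: helper10 (descent, assembly), helper98 (random symmetric completions), helper34 (the sum of
the limits), helper45 (the large sieve engine), and the modules of project Q4 by helper15, helper43,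
helper49, helper76, helper92.
-/

set_option autoImplicit false

namespace Pool.Agent.Results.MP_a3f657_nt.QuarticTwistsTwoInfinity

open NumberField WeierstrassCurve
open Pool.Agent.TH841.SH.D (Pt act Gal Coch)
open Pool.Agent.TH841.NF.D (IsShaCoc shaCoc Sha)
open scoped Classical

section defs

variable {K : Type} [Field K] [NumberField K]

/-- The curve `E_D : y² = x³ + D x`. -/
def curve {K : Type} [Field K] (D : K) : WeierstrassCurve K := ⟨0, 0, 0, D, 0⟩

/-- The endomorphism `(x, y) ↦ (- x, i y)` of `E_D` for a square root `i` of `- 1`, on the points over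
an extension `L`. -/
noncomputable def rotation {K : Type} [Field K] (D i : K) (L : Type) [Field L] [Algebra K L] :
    Pt (curve D) L → Pt (curve D) L
  | 0 => 0
  | .some x y _ =>
    if h : ((curve D).baseChange L).toAffine.Nonsingular (-x) (algebraMap K L i * y) then
      .some _ _ h
    else 0

/-- The group of the continuous cocycles of the absolute Galois group of `K` with values in
`E_D[2^∞]` that are coboundaries in `E_D` at all the places of `K`. -/
def Cocycles (D : K) : AddSubgroup (Coch (curve D)) where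
  carrier := {f | IsShaCoc (curve D) f ∧ ∀ σ, ∃ n : ℕ, 2 ^ n • f σ = 0}
  zero_mem' := (Pool.Agent.D0H10.Q5.Inf.selCoc D).zero_mem'
  add_mem' := (Pool.Agent.D0H10.Q5.Inf.selCoc D).add_mem'
  neg_mem' := (Pool.Agent.D0H10.Q5.Inf.selCoc D).neg_mem'

/-- The group of the coboundaries of the points of `E_D[2^∞]`. -/
def Coboundaries (D : K) : AddSubgroup (Coch (curve D)) where
  carrier := {f | ∃ P : Pt (curve D) (AlgebraicClosure K), (∃ n : ℕ, 2 ^ n • P = 0) ∧
    ∀ σ : Gal K, f σ = act (curve D) σ.toAlgHom P - P}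
  zero_mem' := (Pool.Agent.D0H10.Q5.Inf.cobInf D).zero_mem'
  add_mem' := (Pool.Agent.D0H10.Q5.Inf.cobInf D).add_mem'
  neg_mem' := (Pool.Agent.D0H10.Q5.Inf.cobInf D).neg_mem'

/-- The `2^∞`-Selmer group of `E_D` over `K`: the kernel of
`H¹(K, E_D[2^∞]) → ∏ H¹(K_v, E_D)`. -/
def Sel (D : K) : Type := Cocycles D ⧸ (Coboundaries D).addSubgroupOf (Cocycles D)

/-- The group law of the `2^∞`-Selmer group. -/
noncomputable instance Sel.group (D : K) : AddCommGroup (Sel D) :=
  @QuotientAddGroup.Quotient.addCommGroup (Cocycles D) _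
    ((Coboundaries D).addSubgroupOf (Cocycles D))

/-- The class of a cocycle. -/
noncomputable def cls {D : K} (f : Cocycles D) : Sel D := QuotientAddGroup.mk f

/-- The kernel of the endomorphism `1 + i` on the `2^∞`-Selmer group: the classes of the
cocycles `f` for which `σ ↦ f σ + i (f σ)` is a coboundary. -/
def killed (i D : K) : Set (Sel D) :=
  {x | ∃ f : Cocycles D, cls f = x ∧
    (fun σ => f.1 σ + rotation D i (AlgebraicClosure K) (f.1 σ) : Coch (curve D)) ∈
      Coboundaries D}

/-- The `2^∞`-Selmer group is trivial. -/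
def Trivial (D : K) : Prop := ∀ x : Sel D, x = 0

/-- The rank of `E_D(K)` over `ℤ`. -/
noncomputable def rank (D : K) : ℕ := Module.finrank ℤ (curve D).toAffine.Point

/-- `Ш(E_D / K)[2]`. -/
def ShaTwo (D : K) : Type := {x : Sha (curve D) // 2 • x = 0}

/-- `D` is squarefree and `D = i` modulo `2` for a square root `i` of `-1`. -/
def OddImaginary (D : 𝓞 K) : Prop := Squarefree D ∧ ∃ i : 𝓞 K, i ^ 2 = -1 ∧ 2 ∣ D - i

/-- `D = 2 Δ`, `Δ` is squarefree and `Δ = 1` modulo `2 + 2 i` for a square root `i` of `-1`. -/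
def TwicePrimary (D : 𝓞 K) : Prop :=
  ∃ Δ : 𝓞 K, Squarefree Δ ∧ (∃ i : 𝓞 K, i ^ 2 = -1 ∧ 2 + 2 * i ∣ Δ - 1) ∧ D = 2 * Δ

/-- The family. -/
def InFamily (D : 𝓞 K) : Prop := OddImaginary D ∨ TwicePrimary D

/-- `∏_{j ≥ 0} (1 - 2^{-(2 j + 1)}) / ((2 - 1) (4 - 1) ⋯ (2 ^ r - 1))`. -/
noncomputable def prob (r : ℕ) : ℝ :=
  (∏' j : ℕ, (1 - (1 / 2 : ℝ) ^ (2 * j + 1))) / ∏ j ∈ Finset.range r, ((2 : ℝ) ^ (j + 1) - 1)

end defs

theorem result (K : Type) [Field K] [NumberField K] [IsCyclotomicExtension {4} ℚ K] (i : K)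
    (hi : i ^ 2 = -1) :
    (∀ D : 𝓞 K, InFamily D →
      (∃ r : ℕ, (killed i (D : K)).ncard = 2 ^ r ∧ Finite (ShaTwo (D : K)) ∧
        2 ^ rank (D : K) * Nat.card (ShaTwo (D : K)) ≤ 4 ^ r) ∧
      ((killed i (D : K)).ncard = 1 ↔ Trivial (D : K))) ∧
    (∀ r : ℕ, Filter.Tendsto (fun X : ℕ =>
      ({D : 𝓞 K | Algebra.norm ℤ D ≤ X ∧ InFamily D ∧ (killed i (D : K)).ncard = 2 ^ r}.ncard : ℝ) /
        ({D : 𝓞 K | Algebra.norm ℤ D ≤ X ∧ InFamily D}.ncard : ℝ))
      Filter.atTop (nhds (prob r))) ∧
    (∀ r : ℕ, Filter.Tendsto (fun X : ℕ =>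
      ({D : 𝓞 K | Algebra.norm ℤ D ≤ X ∧ OddImaginary D ∧
        (killed i (D : K)).ncard = 2 ^ r}.ncard : ℝ) /
        ({D : 𝓞 K | Algebra.norm ℤ D ≤ X ∧ OddImaginary D}.ncard : ℝ))
      Filter.atTop (nhds (prob r))) ∧
    (∀ r : ℕ, Filter.Tendsto (fun X : ℕ =>
      ({D : 𝓞 K | Algebra.norm ℤ D ≤ X ∧ TwicePrimary D ∧
        (killed i (D : K)).ncard = 2 ^ r}.ncard : ℝ) /
        ({D : 𝓞 K | Algebra.norm ℤ D ≤ X ∧ TwicePrimary D}.ncard : ℝ))
      Filter.atTop (nhds (prob r))) ∧
    (∀ r : ℕ, Filter.Tendsto (fun X : ℕ =>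
      ({D : 𝓞 K | Algebra.norm ℤ D ≤ X ∧ OddImaginary D ∧
        (killed i (D : K)).ncard = 2 ^ r}.ncard : ℝ) /
        ({D : 𝓞 K | Algebra.norm ℤ D ≤ X ∧ Squarefree D}.ncard : ℝ))
      Filter.atTop (nhds (1 / 3 * prob r))) ∧
    (∀ P ∈ ({InFamily, OddImaginary, TwicePrimary} : Set (𝓞 K → Prop)),
      Filter.Tendsto (fun X : ℕ =>
        (∑ᶠ D ∈ {D : 𝓞 K | Algebra.norm ℤ D ≤ X ∧ P D}, ((killed i (D : K)).ncard : ℝ)) /
          ({D : 𝓞 K | Algebra.norm ℤ D ≤ X ∧ P D}.ncard : ℝ))
        Filter.atTop (nhds 2)) ∧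
    (0.4194 ≤ prob 0 ∧ HasSum prob 1) := by
  obtain ⟨h1, h2, h3, h4, h5⟩ := Pool.Agent.D0H10.Q5.finS Pool.Agent.D0H98.Q5.la2 K i hi
  refine ⟨fun D hD => ?_, h2, h3, h4, h5, fun P hP => ?_, ?_, Pool.Agent.D0H34.Q5.sum1⟩
  · obtain ⟨h6, h7, -⟩ := h1 D hD
    exact ⟨h6, h7⟩
  · have h6 := fun Q hQ => (Pool.Agent.D0H10.Q5.finA
      (Pool.Agent.D0H10.Q5.dis Pool.Agent.D0H98.Q5.la2) K i hi Q hQ).1
    rcases hP with rfl | rfl | rfl
    · exact h6 _ (Or.inl rfl)
    · exact h6 _ (Or.inr (Or.inl rfl))
    · exact h6 _ (Or.inr (Or.inr rfl))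
  · show (0.4194 : ℝ) ≤ (∏' j : ℕ, (1 - (1 / 2 : ℝ) ^ (2 * j + 1))) /
      ∏ j ∈ Finset.range 0, ((2 : ℝ) ^ (j + 1) - 1)
    rw [Finset.prod_range_zero, div_one]
    exact Pool.Agent.D0H10.Q4.Num.c2_ge

end Pool.Agent.Results.MP_a3f657_nt.QuarticTwistsTwoInfinity
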